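import Pool.Agent.W465.LT.Root

/-!
# Sets of addresses and lattice trees
-/

namespace Pool.Agent.W465.LT

open Classical Pool.Agent.W955.LT

/-! ### Trees in general -/

lemma tree_parent {V : Type} [Finite V] (G : SimpleGraph V) (hG : G.IsTree) (r : V) :
    ∃ p : V → V, (∀ x, x ≠ r → G.Adj x (p x) ∧ G.dist r (p x) < G.dist r x) ∧
      ∀ x y, G.Adj x y → (x ≠ r ∧ p x = y) ∨ (y ≠ r ∧ p y = x) := by
  have hc := hG.connected
  have hex : ∀ x, ∃ y, x ≠ r → G.Adj x y ∧ G.dist r y < G.dist r x := by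
    intro x
    by_cases hx : x = r
    · exact ⟨x, fun h => absurd hx h⟩
    · obtain ⟨q, hq⟩ := hc.exists_walk_length_eq_dist x r
      cases q with
      | nil => exact absurd rfl hx
      | @cons _ y _ hxy q =>
        refine ⟨y, fun _ => ⟨hxy, ?_⟩⟩
        have h1 := SimpleGraph.dist_le q
        rw [SimpleGraph.Walk.length_cons] at hq
        rw [SimpleGraph.dist_comm (u := r) (v := y), SimpleGraph.dist_comm (u := r) (v := x)]
        omega
  choose p hp using hex
  refine ⟨p, hp, ?_⟩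
  have hfin : Fintype V := Fintype.ofFinite V
  let f : {x : V // x ≠ r} → G.edgeSet := fun x => ⟨s(x.1, p x.1), (hp x.1 x.2).1⟩
  have hf : Function.Injective f := by
    intro x y hxy
    have h1 : s(x.1, p x.1) = s(y.1, p y.1) := congrArg Subtype.val hxy
    rw [Sym2.eq_iff] at h1
    rcases h1 with h1 | h1
    · exact Subtype.ext h1.1
    · exfalso
      have h2 := (hp x.1 x.2).2
      have h3 := (hp y.1 y.2).2
      rw [h1.2] at h2
      rw [← h1.1] at h3
      omega
  have hcard : Nat.card G.edgeSet ≤ Nat.card {x : V // x ≠ r} := by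
    have h1 := (SimpleGraph.isTree_iff_connected_and_card.1 hG).2
    have h2 : Nat.card {x : V // x ≠ r} = Nat.card V - 1 := by
      rw [Nat.card_eq_fintype_card, Nat.card_eq_fintype_card]
      exact Set.card_ne_eq r
    omega
  have hb := hf.bijective_of_nat_card_le hcard
  intro x y hxy
  obtain ⟨z, hz⟩ := hb.2 ⟨s(x, y), hxy⟩
  have h1 : s(z.1, p z.1) = s(x, y) := congrArg Subtype.val hz
  rw [Sym2.eq_iff] at h1
  rcases h1 with ⟨h1, h2⟩ | ⟨h1, h2⟩
  · left
    rw [← h1]
    exact ⟨z.2, h2⟩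
  · right
    rw [← h1]
    exact ⟨z.2, h2⟩

/-! ### The lattices -/

lemma adj_step (k : Kind) (a : ℤ × ℤ) (d : ℕ) (hd : d < nd k) : adj k a (mul k a (stp k d)) := by
  cases k
  · simp only [nd] at hd
    interval_cases d <;> simp [adj, mul, sgn, stp, dirs]
  · simp only [nd] at hd
    interval_cases d <;> simp only [adj, mul, sgn, stp, dirs, List.getD_cons_zero,
      List.getD_cons_succ, Int.even_iff] <;> split_ifs with h <;> simp <;> omega
  · simp only [nd] at hd
    interval_cases d <;> simp [adj, mul, sgn, stp, dirs] <;> rfl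

lemma adj_conv (k : Kind) (a b : ℤ × ℤ) (h : adj k a b) :
    ∃ d, d < nd k ∧ b = mul k a (stp k d) := by
  cases k
  · simp only [adj] at h
    have h' : (b.1 = a.1 + 1 ∧ b.2 = a.2) ∨ (b.1 = a.1 - 1 ∧ b.2 = a.2) ∨
        (b.1 = a.1 ∧ b.2 = a.2 + 1) ∨ (b.1 = a.1 ∧ b.2 = a.2 - 1) := by
      rcases abs_cases (a.1 - b.1) with ⟨h1, h2⟩ | ⟨h1, h2⟩ <;>
        rcases abs_cases (a.2 - b.2) with ⟨h3, h4⟩ | ⟨h3, h4⟩ <;> rw [h1, h3] at h <;> omega
    rcases h' with ⟨h1, h2⟩ | ⟨h1, h2⟩ | ⟨h1, h2⟩ | ⟨h1, h2⟩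
    · exact ⟨0, by simp [nd], by ext <;> simp [mul, sgn, stp, dirs, h1, h2]⟩
    · exact ⟨1, by simp [nd], by ext <;> simp [mul, sgn, stp, dirs, h1, h2]; omega⟩
    · exact ⟨2, by simp [nd], by ext <;> simp [mul, sgn, stp, dirs, h1, h2]⟩
    · exact ⟨3, by simp [nd], by ext <;> simp [mul, sgn, stp, dirs, h1, h2]; omega⟩
  · simp only [adj, Int.even_iff] at h
    have h' : (b.1 = a.1 + 1 ∧ b.2 = a.2) ∨ (b.1 = a.1 - 1 ∧ b.2 = a.2) ∨
        (b.1 = a.1 ∧ b.2 = a.2 + 1 ∧ (a.1 + a.2) % 2 = 0) ∨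
        (b.1 = a.1 ∧ b.2 = a.2 - 1 ∧ (a.1 + a.2) % 2 ≠ 0) := by
      rcases abs_cases (a.1 - b.1) with ⟨h1, h2⟩ | ⟨h1, h2⟩ <;> rw [h1] at h <;> omega
    by_cases hpar : (a.1 + a.2) % 2 = 0
    · rcases h' with ⟨h1, h2⟩ | ⟨h1, h2⟩ | ⟨h1, h2, h3⟩ | ⟨h1, h2, h3⟩
      · exact ⟨0, by simp [nd], by ext <;> simp [mul, sgn, stp, dirs, h1, h2, hpar]⟩
      · exact ⟨1, by simp [nd], by ext <;> simp [mul, sgn, stp, dirs, h1, h2, hpar]; omega⟩
      · exact ⟨2, by simp [nd], by ext <;> simp [mul, sgn, stp, dirs, h1, h2, hpar]⟩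
      · exact absurd hpar h3
    · rcases h' with ⟨h1, h2⟩ | ⟨h1, h2⟩ | ⟨h1, h2, h3⟩ | ⟨h1, h2, h3⟩
      · exact ⟨1, by simp [nd], by ext <;> simp [mul, sgn, stp, dirs, h1, h2, hpar]⟩
      · exact ⟨0, by simp [nd], by ext <;> simp [mul, sgn, stp, dirs, h1, h2, hpar]; omega⟩
      · exact absurd h3 hpar
      · exact ⟨2, by simp [nd], by ext <;> simp [mul, sgn, stp, dirs, h1, h2, hpar]; omega⟩
  · simp only [adj] at h
    have h' : (b.1 = a.1 + 1 ∧ b.2 = a.2) ∨ (b.1 = a.1 - 1 ∧ b.2 = a.2) ∨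
        (b.1 = a.1 ∧ b.2 = a.2 + 1) ∨ (b.1 = a.1 ∧ b.2 = a.2 - 1) ∨
        (b.1 = a.1 + 1 ∧ b.2 = a.2 - 1) ∨ (b.1 = a.1 - 1 ∧ b.2 = a.2 + 1) := by
      rcases abs_cases (a.1 - b.1) with ⟨h1, h2⟩ | ⟨h1, h2⟩ <;>
        rcases abs_cases (a.2 - b.2) with ⟨h3, h4⟩ | ⟨h3, h4⟩ <;> rw [h1, h3] at h <;> omega
    rcases h' with ⟨h1, h2⟩ | ⟨h1, h2⟩ | ⟨h1, h2⟩ | ⟨h1, h2⟩ | ⟨h1, h2⟩ | ⟨h1, h2⟩
    · exact ⟨0, by simp [nd], by ext <;> simp [mul, sgn, stp, dirs, h1, h2]⟩
    · exact ⟨1, by simp [nd], by ext <;> simp [mul, sgn, stp, dirs, h1, h2]; omega⟩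
    · exact ⟨2, by simp [nd], by ext <;> simp [mul, sgn, stp, dirs, h1, h2]⟩
    · exact ⟨3, by simp [nd], by ext <;> simp [mul, sgn, stp, dirs, h1, h2]; omega⟩
    · exact ⟨4, by simp [nd], by ext <;> simp [mul, sgn, stp, dirs, h1, h2]; omega⟩
    · exact ⟨5, by simp [nd], by ext <;> simp [mul, sgn, stp, dirs, h1, h2]; omega⟩

lemma stp_inj (k : Kind) (d e : ℕ) (hd : d < nd k) (he : e < nd k) (h : stp k d = stp k e) :
    d = e := by
  cases k <;> simp only [nd] at hd he <;> interval_cases d <;> interval_cases e <;>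
    first | rfl | exact absurd h (by decide)

lemma posZ_addC (k : Kind) (s : Bool) (d : ℕ) (hd : d < nd k) (p : ℕ × ℕ × ℕ × ℕ) :
    posZ (addC k s d p) = ((posZ p).1 + (if s then -1 else 1) * (stp k d).1,
      (posZ p).2 + (if s then -1 else 1) * (stp k d).2) := by
  cases k <;> simp only [nd] at hd <;> interval_cases d <;> cases s <;>
    simp [posZ, addC, stp, dirs] <;> omega

lemma sgnC_eq (k : Kind) (w : List ℕ) (hw : ∀ d ∈ w, d < nd k) :
    sgn k (pos k w) = if sgnC k w then -1 else 1 := by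
  cases k
  · simp [sgn, sgnC]
  · have key : ∀ w : List ℕ, (∀ d ∈ w, d < nd .hex) →
        ((pos .hex w).1 + (pos .hex w).2) % 2 = (w.length : ℤ) % 2 := by
      intro w
      induction w with
      | nil => intro _; simp [pos]
      | cons d w ih =>
        intro hw
        have h1 := ih (fun e he => hw e (List.mem_cons_of_mem d he))
        have h2 : d < nd .hex := hw d (by simp)
        simp only [nd] at h2
        simp only [pos, mul]
        rcases sgn_sq .hex (pos .hex w) with h3 | h3 <;> rw [h3] <;> interval_cases d <;>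
          simp [stp, dirs] <;> omega
    have h1 := key w hw
    simp only [sgn, sgnC, h1]
    by_cases h2 : w.length % 2 = 1
    · have h3 : ¬ ((w.length : ℤ) % 2 = 0) := by omega
      rw [if_neg h3]
      simp [h2]
    · have h3 : (w.length : ℤ) % 2 = 0 := by omega
      rw [if_pos h3]
      simp [h2]
  · simp [sgn, sgnC]

lemma posC_eq (k : Kind) (w : List ℕ) (hw : ∀ d ∈ w, d < nd k) : posZ (posC k w) = pos k w := by
  induction w with
  | nil => rfl
  | cons d w ih =>
    have hw' : ∀ e ∈ w, e < nd k := fun e he => hw e (List.mem_cons_of_mem d he)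
    simp only [posC, pos]
    rw [posZ_addC k _ d (hw d (by simp)), ih hw']
    simp only [mul]
    rw [sgnC_eq k w hw']

/-! ### The subgraph of a set of addresses -/

/-- the subgraph -/
noncomputable def Phi (k : Kind) (A : Finset (List ℕ)) : (lattice k).Subgraph where
  verts := pos k '' (A : Set (List ℕ))
  Adj u v := ∃ d w, d :: w ∈ A ∧ w ∈ A ∧ d < nd k ∧
    ((u = pos k w ∧ v = pos k (d :: w)) ∨ (v = pos k w ∧ u = pos k (d :: w)))
  adj_sub := by
    rintro u v ⟨d, w, -, -, hd, ⟨rfl, rfl⟩ | ⟨rfl, rfl⟩⟩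
    · exact adj_step k _ d hd
    · exact (lattice k).symm.symm _ _ (adj_step k _ d hd)
  edge_vert := by
    rintro u v ⟨d, w, h1, h2, hd, ⟨rfl, rfl⟩ | ⟨rfl, rfl⟩⟩
    · exact ⟨w, h2, rfl⟩
    · exact ⟨d :: w, h1, rfl⟩
  symm := by
    constructor
    rintro u v ⟨d, w, h1, h2, hd, h | h⟩
    · exact ⟨d, w, h1, h2, hd, Or.inr h⟩
    · exact ⟨d, w, h1, h2, hd, Or.inl h⟩

variable {k : Kind}

lemma letters {A : Finset (List ℕ)} (hA : Tr k A) : ∀ w ∈ A, ∀ d ∈ w, d < nd k := by
  intro w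
  induction w with
  | nil => intro _ d hd; simp at hd
  | cons e w ih =>
    intro hw d hd
    rcases List.mem_cons.1 hd with rfl | hd
    · exact hA.dir d w hw
    · exact ih (hA.tail e w hw) d hd

lemma Phi_tree {A : Finset (List ℕ)} (hA : Tr k A) : IsLT k A.card (Phi k A) := by
  have hz : ((0, 0) : ℤ × ℤ) ∈ (Phi k A).verts := ⟨[], hA.nil, rfl⟩
  have hncard : (Phi k A).verts.ncard = A.card := by
    change (pos k '' (A : Set (List ℕ))).ncard = _
    rw [hA.inj.ncard_image, Set.ncard_coe_finset]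
  have hfin : Finite (Phi k A).verts := (A.finite_toSet.image (pos k)).to_subtype
  have hreach : ∀ w (hw : w ∈ A), (Phi k A).coe.Reachable ⟨(0, 0), hz⟩ ⟨pos k w, ⟨w, hw, rfl⟩⟩ := by
    intro w
    induction w with
    | nil => intro hw; exact SimpleGraph.Reachable.refl _
    | cons d w ih =>
      intro hw
      have hw' := hA.tail d w hw
      refine (ih hw').trans (SimpleGraph.Adj.reachable ?_)
      rw [SimpleGraph.Subgraph.coe_adj]
      exact ⟨d, w, hw, hw', hA.dir d w hw, Or.inl ⟨rfl, rfl⟩⟩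
  have hconn : (Phi k A).coe.Connected := by
    rw [SimpleGraph.connected_iff_exists_forall_reachable]
    refine ⟨⟨(0, 0), hz⟩, ?_⟩
    rintro ⟨x, w, hw, rfl⟩
    exact hreach w hw
  refine ⟨?_, hz, hncard⟩
  rw [SimpleGraph.isTree_iff_connected_and_card]
  refine ⟨hconn, ?_⟩
  have h1 := hconn.card_vert_le_card_edgeSet_add_one
  have h2 : Nat.card (Phi k A).verts = A.card := hncard
  have hadj : ∀ w (hw : w ∈ A.erase []), (Phi k A).Adj (pos k w.tail) (pos k w) := by
    intro w hw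
    rw [Finset.mem_erase] at hw
    cases w with
    | nil => exact absurd rfl hw.1
    | cons d w =>
      exact ⟨d, w, hw.2, hA.tail d w hw.2, hA.dir d w hw.2, Or.inl ⟨rfl, rfl⟩⟩
  let f : {w // w ∈ A.erase []} → (Phi k A).coe.edgeSet := fun w =>
    ⟨s(⟨pos k w.1.tail, (Phi k A).edge_vert (hadj w.1 w.2)⟩,
      ⟨pos k w.1, (Phi k A).edge_vert ((hadj w.1 w.2).symm)⟩), by
        rw [SimpleGraph.mem_edgeSet, SimpleGraph.Subgraph.coe_adj]
        exact hadj w.1 w.2⟩
  have hf : Function.Surjective f := by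
    rintro ⟨e, he⟩
    induction e using Sym2.ind with
    | _ x y =>
      rw [SimpleGraph.mem_edgeSet, SimpleGraph.Subgraph.coe_adj] at he
      obtain ⟨d, w, h3, h4, h5, h6⟩ := he
      refine ⟨⟨d :: w, by rw [Finset.mem_erase]; exact ⟨by simp, h3⟩⟩, ?_⟩
      apply Subtype.ext
      rcases h6 with ⟨h6, h7⟩ | ⟨h6, h7⟩
      · change s(_, _) = s(x, y)
        rw [Sym2.eq_iff]
        left
        exact ⟨Subtype.ext h6.symm, Subtype.ext h7.symm⟩
      · change s(_, _) = s(x, y)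
        rw [Sym2.eq_iff]
        right
        exact ⟨Subtype.ext h6.symm, Subtype.ext h7.symm⟩
  have h3 : Nat.card (Phi k A).coe.edgeSet ≤ Nat.card {w // w ∈ A.erase []} :=
    Nat.card_le_card_of_surjective f hf
  have h4 : Nat.card {w // w ∈ A.erase []} = A.card - 1 := by
    rw [Nat.card_eq_fintype_card, Fintype.card_coe, Finset.card_erase_of_mem hA.nil]
  have h5 : 1 ≤ A.card := Finset.card_pos.2 ⟨[], hA.nil⟩
  omega

lemma Phi_sub {A B : Finset (List ℕ)} (hA : Tr k A) (hB : Tr k B) (h : Phi k A = Phi k B) :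
    A ⊆ B := by
  intro w
  induction w with
  | nil => intro _; exact hB.nil
  | cons d w ih =>
    intro hw
    have hwA := hA.tail d w hw
    have hwB := ih hwA
    have hd := hA.dir d w hw
    have h1 : (Phi k A).Adj (pos k w) (pos k (d :: w)) :=
      ⟨d, w, hw, hwA, hd, Or.inl ⟨rfl, rfl⟩⟩
    rw [h] at h1
    obtain ⟨e, v, h2, h3, h4, h5 | h5⟩ := h1
    · have h6 : w = v := hB.inj hwB h3 h5.1
      subst h6
      have h7 : d = e := by
        apply stp_inj k d e hd h4
        apply mul_inj k (pos k w)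
        exact h5.2
      rw [h7]
      exact h2
    · exfalso
      have h6 : w = e :: v := hB.inj hwB h2 h5.2
      subst h6
      have hvA : v ∈ A := hA.tail e v hwA
      have h7 := hA.inj hw hvA h5.1
      have h8 := congrArg List.length h7
      simp only [List.length_cons] at h8
      omega

/-- the words of the vertices of a rooted tree -/
inductive R (k : Kind) {H : (lattice k).Subgraph} (p : H.verts → H.verts) (r : H.verts) :
    H.verts → List ℕ → Prop
  | root : R k p r r []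
  | step (x : H.verts) (d : ℕ) (w : List ℕ) (hx : x ≠ r) (hw : R k p r (p x) w) (hd : d < nd k)
      (he : x.1 = mul k (p x).1 (stp k d)) : R k p r x (d :: w)

lemma R_unique {H : (lattice k).Subgraph} {p : H.verts → H.verts} {r : H.verts} :
    ∀ (w w' : List ℕ) (x : H.verts), R k p r x w → R k p r x w' → w = w' := by
  intro w
  induction w with
  | nil =>
    intro w' x h h'
    cases h
    cases h' with
    | root => rfl
    | step x d w hx hw hd he => exact absurd rfl hx
  | cons d w ih =>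
    intro w' x h h'
    cases h with
    | step x d w hx hw hd he =>
      cases h' with
      | root => exact absurd rfl hx
      | step x d' w' hx' hw' hd' he' =>
        rw [ih w' (p x) hw hw']
        congr 1
        apply stp_inj k d d' hd hd'
        apply mul_inj k (p x).1
        rw [← he, ← he']

lemma R_pos {H : (lattice k).Subgraph} {p : H.verts → H.verts} {r : H.verts}
    (hr : r.1 = (0, 0)) : ∀ (w : List ℕ) (x : H.verts), R k p r x w → pos k w = x.1 := by
  intro w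
  induction w with
  | nil =>
    intro x h
    cases h
    exact hr.symm
  | cons d w ih =>
    intro x h
    cases h with
    | step x d w hx hw hd he =>
      simp only [pos]
      rw [ih (p x) hw, he]

lemma surj (n : ℕ) (hn : 1 ≤ n) (H : (lattice k).Subgraph) (hH : IsLT k n H) :
    ∃ A, (Tr k A ∧ A.card = n) ∧ Phi k A = H := by
  have hfin : Finite H.verts := by
    apply Set.Finite.to_subtype
    apply Set.finite_of_ncard_ne_zero
    rw [hH.card]
    omega
  obtain ⟨p, hp1, hp2⟩ := tree_parent H.coe hH.tree ⟨(0, 0), hH.zero⟩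
  set r : H.verts := ⟨(0, 0), hH.zero⟩ with hr
  have hex : ∀ x : H.verts, ∃ w, R k p r x w := by
    intro x
    induction hm : H.coe.dist r x using Nat.strong_induction_on generalizing x with
    | _ m ih =>
      by_cases hx : x = r
      · rw [hx]
        exact ⟨[], R.root⟩
      · obtain ⟨h1, h2⟩ := hp1 x hx
        obtain ⟨w, hw⟩ := ih _ (by rw [← hm]; exact h2) (p x) rfl
        have h3 : adj k (p x).1 x.1 := H.adj_sub h1.symm
        obtain ⟨d, hd, hdx⟩ := adj_conv k _ _ h3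
        exact ⟨d :: w, R.step x d w hx hw hd hdx⟩
  choose W hW using hex
  have hpos : ∀ x, pos k (W x) = x.1 := fun x => R_pos rfl _ _ (hW x)
  have hWinj : Function.Injective W := by
    intro x y hxy
    apply Subtype.ext
    rw [← hpos x, ← hpos y, hxy]
  have hWr : W r = [] := R_unique _ _ _ (hW r) R.root
  have hWs : ∀ x, x ≠ r → ∃ d, d < nd k ∧ W x = d :: W (p x) := by
    intro x hx
    have h1 := hW x
    generalize hw : W x = w at h1
    cases h1 with
    | root => exact absurd rfl hx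
    | step x d w hx hw' hd he =>
      refine ⟨d, hd, ?_⟩
      rw [R_unique _ _ _ hw' (hW (p x))]
  have hfr : (Set.range W).Finite := Set.finite_range W
  have hmem : ∀ w, w ∈ hfr.toFinset ↔ ∃ x, W x = w := by
    intro w
    rw [Set.Finite.mem_toFinset]
    rfl
  have hstep : ∀ d w, d :: w ∈ hfr.toFinset → d < nd k ∧ ∃ x, x ≠ r ∧ W x = d :: w ∧ W (p x) = w := by
    intro d w hdw
    rw [hmem] at hdw
    obtain ⟨x, hx⟩ := hdw
    have hxr : x ≠ r := by
      rintro rfl
      rw [hWr] at hx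
      exact absurd hx (by simp)
    obtain ⟨e, he, hxe⟩ := hWs x hxr
    rw [hx] at hxe
    simp only [List.cons.injEq] at hxe
    refine ⟨by rw [hxe.1]; exact he, x, hxr, hx, hxe.2.symm⟩
  refine ⟨hfr.toFinset, ⟨⟨?_, ?_, ?_, ?_⟩, ?_⟩, ?_⟩
  · rw [hmem]
    exact ⟨r, hWr⟩
  · intro d w hdw
    obtain ⟨-, x, -, -, h3⟩ := hstep d w hdw
    rw [hmem]
    exact ⟨p x, h3⟩
  · intro d w hdw
    exact (hstep d w hdw).1
  · intro u hu v hv huv
    rw [Finset.mem_coe, hmem] at hu hv
    obtain ⟨x, rfl⟩ := hu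
    obtain ⟨y, rfl⟩ := hv
    rw [hpos, hpos] at huv
    rw [Subtype.ext huv]
  · rw [← Set.ncard_eq_toFinset_card _ hfr, ← Set.image_univ, Set.ncard_image_of_injective _ hWinj,
      Set.ncard_univ, ← hH.card]
    rfl
  · ext u v
    · change u ∈ pos k '' ((hfr.toFinset : Finset (List ℕ)) : Set (List ℕ)) ↔ u ∈ H.verts
      constructor
      · rintro ⟨w, hw, rfl⟩
        rw [Finset.mem_coe, hmem] at hw
        obtain ⟨x, rfl⟩ := hw
        rw [hpos]
        exact x.2
      · intro hu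
        refine ⟨W ⟨u, hu⟩, ?_, hpos _⟩
        rw [Finset.mem_coe, hmem]
        exact ⟨_, rfl⟩
    · constructor
      · rintro ⟨d, w, h1, h2, h3, h4⟩
        obtain ⟨-, x, hx1, hx2, hx3⟩ := hstep d w h1
        have h5 : H.Adj x.1 (p x).1 := (hp1 x hx1).1
        rw [← hx2, ← hx3, hpos, hpos] at h4
        rcases h4 with ⟨h6, h7⟩ | ⟨h6, h7⟩
        · rw [h6, h7]
          exact h5.symm
        · rw [h6, h7]
          exact h5
      · intro huv
        have hu : u ∈ H.verts := H.edge_vert huv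
        have hv : v ∈ H.verts := H.edge_vert huv.symm
        have h1 : H.coe.Adj ⟨u, hu⟩ ⟨v, hv⟩ := huv
        have key : ∀ x : H.verts, x ≠ r → ∃ d w, d :: w ∈ hfr.toFinset ∧ w ∈ hfr.toFinset ∧
            d < nd k ∧ ((p x).1 = pos k w ∧ x.1 = pos k (d :: w)) := by
          intro x hx
          obtain ⟨d, hd, hxd⟩ := hWs x hx
          refine ⟨d, W (p x), ?_, ?_, hd, (hpos _).symm, ?_⟩
          · rw [hmem]
            exact ⟨x, hxd⟩
          · rw [hmem]
            exact ⟨p x, rfl⟩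
          · rw [← hxd, hpos]
        rcases hp2 _ _ h1 with ⟨hx, he⟩ | ⟨hx, he⟩
        · obtain ⟨d, w, k1, k2, k3, k4, k5⟩ := key _ hx
          rw [he] at k4
          exact ⟨d, w, k1, k2, k3, Or.inr ⟨k4, k5⟩⟩
        · obtain ⟨d, w, k1, k2, k3, k4, k5⟩ := key _ hx
          rw [he] at k4
          exact ⟨d, w, k1, k2, k3, Or.inl ⟨k4, k5⟩⟩

lemma edges {A : Finset (List ℕ)} (hA : Tr k A) (l : List (List ℕ)) (hl : l.toFinset = A)
    (s : List (List ℕ)) : EdgeList (edgesC k (l, s)) (Phi k A) := by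
  have hmem : ∀ w, w ∈ l ↔ w ∈ A := by
    intro w
    rw [← hl, List.mem_toFinset]
  have hE : ∀ e, e ∈ edgesC k (l, s) ↔ ∃ d w, d :: w ∈ A ∧ e = (pos k w, pos k (d :: w)) := by
    intro e
    unfold edgesC
    rw [List.mem_map]
    constructor
    · rintro ⟨w, hw, rfl⟩
      rw [List.mem_filter] at hw
      obtain ⟨hw1, hw2⟩ := hw
      rw [hmem] at hw1
      cases w with
      | nil => simp at hw2
      | cons d w =>
        refine ⟨d, w, hw1, ?_⟩
        rw [posC_eq k (d :: w) (letters hA _ hw1), List.tail_cons,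
          posC_eq k w (letters hA _ (hA.tail d w hw1))]
    · rintro ⟨d, w, hw, rfl⟩
      refine ⟨d :: w, ?_, ?_⟩
      · rw [List.mem_filter]
        exact ⟨(hmem _).2 hw, by simp⟩
      · rw [posC_eq k (d :: w) (letters hA _ hw), List.tail_cons,
          posC_eq k w (letters hA _ (hA.tail d w hw))]
  constructor
  · intro v
    constructor
    · rintro ⟨w, hw, rfl⟩
      cases w with
      | nil => left; rfl
      | cons d w =>
        right
        exact ⟨_, (hE _).2 ⟨d, w, hw, rfl⟩, Or.inr rfl⟩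
    · rintro (rfl | ⟨e, he, hv⟩)
      · exact ⟨[], hA.nil, rfl⟩
      · rw [hE] at he
        obtain ⟨d, w, hw, rfl⟩ := he
        rcases hv with rfl | rfl
        · exact ⟨w, hA.tail d w hw, rfl⟩
        · exact ⟨d :: w, hw, rfl⟩
  · intro u v
    rw [hE, hE]
    constructor
    · rintro ⟨d, w, h1, h2, h3, ⟨rfl, rfl⟩ | ⟨rfl, rfl⟩⟩
      · left
        exact ⟨d, w, h1, rfl⟩
      · right
        exact ⟨d, w, h1, rfl⟩
    · rintro (⟨d, w, h1, h2⟩ | ⟨d, w, h1, h2⟩)
      · rw [Prod.mk.injEq] at h2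
        exact ⟨d, w, h1, hA.tail d w h1, hA.dir d w h1, Or.inl h2⟩
      · rw [Prod.mk.injEq] at h2
        exact ⟨d, w, h1, hA.tail d w h1, hA.dir d w h1, Or.inr h2⟩

theorem bridge_main : S_bridge := by
  intro k n hn
  refine ⟨Phi k, ⟨?_, ?_, ?_⟩, ?_⟩
  · rintro A ⟨hA, hc⟩
    rw [← hc]
    exact Phi_tree hA
  · rintro A ⟨hA, -⟩ B ⟨hB, -⟩ hAB
    exact Finset.Subset.antisymm (Phi_sub hA hB hAB) (Phi_sub hB hA hAB.symm)
  · intro H hH
    exact surj n hn H hH
  · intro A hA _ l hl s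
    exact edges hA l hl s

end Pool.Agent.W465.LT
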