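import Pool.Agent.W465.LT.Root

/-!
# The numbers of trees are supermultiplicative up to a polynomial factor
-/

namespace Pool.Agent.W465.LT

open Classical Pool.Agent.W955.LT

variable {k : Kind}

/-- the part outside the subtree at `w` -/
noncomputable def dec1 (C : Finset (List ℕ)) (w : List ℕ) : Finset (List ℕ) :=
  C.filter (fun y => ¬ w <:+ y)

lemma tr_pt (k : Kind) : Tr k {[]} := by
  refine ⟨by simp, ?_, ?_, ?_⟩
  · intro d w h; simp at h
  · intro d w h; simp at h
  · intro u hu v hv _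
    simp only [Finset.coe_singleton, Set.mem_singleton_iff] at hu hv
    rw [hu, hv]

lemma glue (hp : ∀ k u v, pos k (u ++ v) = mul k (pos k v) (pos k u))
    (A B : Finset (List ℕ)) (hA : Tr k A) (hB : Tr k B) (u : List ℕ) (hu : u ∈ A)
    (d : ℕ) (hd : d < nd k) (h1 : ∀ y ∈ A, (pos k y).1 < (pos k (d :: u)).1)
    (h2 : ∀ y ∈ B, 0 ≤ sgn k (pos k (d :: u)) * (pos k y).1) :
    Tr k (A ∪ B.image (fun y => y ++ d :: u)) ∧
    (A ∪ B.image (fun y => y ++ d :: u)).card = A.card + B.card ∧
    dec1 (A ∪ B.image (fun y => y ++ d :: u)) (d :: u) = A ∧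
    below (A ∪ B.image (fun y => y ++ d :: u)) (d :: u) = B := by
  have hkey : ∀ y ∈ A, ¬ (d :: u) <:+ y := by
    rintro y hy ⟨z, rfl⟩
    have := h1 _ (Tr.suffix hA z _ hy)
    omega
  have hpos1 : ∀ y ∈ B, (pos k (d :: u)).1 ≤ (pos k (y ++ d :: u)).1 := by
    intro y hy
    rw [hp]
    have := h2 y hy
    simp only [mul]
    omega
  have hinjB : Function.Injective (fun y : List ℕ => y ++ d :: u) := by
    intro y z hyz
    exact List.append_cancel_right hyz
  have hdisj : Disjoint A (B.image (fun y => y ++ d :: u)) := by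
    rw [Finset.disjoint_left]
    intro y hy hy'
    rw [Finset.mem_image] at hy'
    obtain ⟨z, -, rfl⟩ := hy'
    exact hkey _ hy (List.suffix_append z _)
  refine ⟨⟨?_, ?_, ?_, ?_⟩, ?_, ?_, ?_⟩
  · exact Finset.mem_union_left _ hA.nil
  · intro e w hw
    rw [Finset.mem_union, Finset.mem_image] at hw ⊢
    rcases hw with hw | ⟨y, hy, hyw⟩
    · exact Or.inl (hA.tail e w hw)
    · cases y with
      | nil =>
        simp only [List.nil_append, List.cons.injEq] at hyw
        left
        rw [← hyw.2]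
        exact hu
      | cons e' y =>
        simp only [List.cons_append, List.cons.injEq] at hyw
        right
        exact ⟨y, hB.tail _ _ hy, hyw.2⟩
  · intro e w hw
    rw [Finset.mem_union, Finset.mem_image] at hw
    rcases hw with hw | ⟨y, hy, hyw⟩
    · exact hA.dir e w hw
    · cases y with
      | nil =>
        simp only [List.nil_append, List.cons.injEq] at hyw
        rw [← hyw.1]
        exact hd
      | cons e' y =>
        simp only [List.cons_append, List.cons.injEq] at hyw
        rw [← hyw.1]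
        exact hB.dir _ _ hy
  · intro y hy z hz hyz
    rw [Finset.mem_coe, Finset.mem_union, Finset.mem_image] at hy hz
    rcases hy with hy | ⟨y', hy', rfl⟩
    · rcases hz with hz | ⟨z', hz', rfl⟩
      · exact hA.inj hy hz hyz
      · exfalso
        have h3 := h1 y hy
        have h4 := hpos1 z' hz'
        rw [hyz] at h3
        omega
    · rcases hz with hz | ⟨z', hz', rfl⟩
      · exfalso
        have h3 := h1 z hz
        have h4 := hpos1 y' hy'
        rw [← hyz] at h3
        omega
      · rw [hp, hp] at hyz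
        have h5 := mul_inj k _ _ _ hyz
        rw [hB.inj hy' hz' h5]
  · rw [Finset.card_union_of_disjoint hdisj, Finset.card_image_of_injective _ hinjB]
  · unfold dec1
    ext y
    rw [Finset.mem_filter, Finset.mem_union, Finset.mem_image]
    constructor
    · rintro ⟨hy | ⟨z, hz, rfl⟩, hy2⟩
      · exact hy
      · exact absurd (List.suffix_append z _) hy2
    · intro hy
      exact ⟨Or.inl hy, hkey y hy⟩
  · unfold below
    ext y
    rw [Finset.mem_image]
    constructor
    · rintro ⟨z, hz, rfl⟩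
      rw [Finset.mem_filter, Finset.mem_union, Finset.mem_image] at hz
      obtain ⟨hz | ⟨x, hx, rfl⟩, hz2⟩ := hz
      · exact absurd hz2 (hkey z hz)
      · have : List.take ((x ++ d :: u).length - (d :: u).length) (x ++ d :: u) = x := by
          rw [List.length_append, Nat.add_sub_cancel, List.take_left']
          rfl
        rw [this]
        exact hx
    · intro hy
      refine ⟨y ++ d :: u, ?_, ?_⟩
      · rw [Finset.mem_filter, Finset.mem_union, Finset.mem_image]
        exact ⟨Or.inr ⟨y, hy, rfl⟩, List.suffix_append y _⟩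
      · rw [List.length_append, Nat.add_sub_cancel, List.take_left']
        rfl

lemma right_dir (k : Kind) (u : List ℕ) :
    ∃ d, d < nd k ∧ pos k (d :: u) = ((pos k u).1 + 1, (pos k u).2) := by
  rcases sgn_sq k (pos k u) with h | h
  · refine ⟨0, ?_, ?_⟩
    · cases k <;> simp [nd]
    · simp only [pos, mul, h]
      cases k <;> simp [stp, dirs]
  · refine ⟨1, ?_, ?_⟩
    · cases k <;> simp [nd]
    · simp only [pos, mul, h]
      cases k <;> simp [stp, dirs]

lemma sgn_right (k : Kind) (x : ℤ × ℤ) (s : ℤ) (hs : s = 1 ∨ s = -1)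
    (h : sgn k (x.1 + 1, x.2) ≠ s) (h' : ∃ y, sgn k y = s) : sgn k (x.1 + 1 + 1, x.2) = s := by
  cases k
  · obtain ⟨y, hy⟩ := h'
    exact hy
  · simp only [sgn] at h ⊢
    split_ifs at h ⊢ <;> rcases hs with rfl | rfl <;> simp_all <;> omega
  · obtain ⟨y, hy⟩ := h'
    exact hy

/-- decoding the second tree -/
noncomputable def decB (k : Kind) (C : Finset (List ℕ)) (w z : List ℕ) : Finset (List ℕ) :=
  rrt k (z.take (z.length - w.length)) (below C w)

lemma code (_hm : ∀ k a b c, mul k (mul k a b) c = mul k a (mul k b c))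
    (hp : ∀ k u v, pos k (u ++ v) = mul k (pos k v) (pos k u)) (hroot : S_root)
    (A B : Finset (List ℕ)) (hA : Tr k A) (hB : Tr k B) :
    (∃ C w z, Tr k C ∧ w ∈ C ∧ z ∈ C ∧ C.card = A.card + B.card ∧ A = dec1 C w ∧
      B = decB k C w z) ∨
    (∃ C w z, Tr k C ∧ w ∈ C ∧ z ∈ C ∧ C.card = A.card + B.card + 1 ∧
      A = dec1 (dec1 C w) w.tail ∧ B = decB k C w z) := by
  obtain ⟨u, hu, humax⟩ := Finset.exists_max_image A (fun y => (pos k y).1) ⟨[], hA.nil⟩
  obtain ⟨v, hv, hvmin⟩ := Finset.exists_min_image B (fun y => (pos k y).1) ⟨[], hB.nil⟩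
  obtain ⟨hB1, hB2, hB3, hB4, hB5⟩ := hroot k v B hB hv
  set B' := rrt k v B with hB'
  set r' := (v.map (dinv k)).reverse with hr'
  have hmin : ∀ y ∈ B', 0 ≤ sgn k (pos k v) * (pos k y).1 := by
    intro y hy
    have h1 := (hB5 (pos k y)).1 (Finset.mem_image_of_mem _ hy)
    rw [Finset.mem_image] at h1
    obtain ⟨x, hx, hxy⟩ := h1
    have h2 := hvmin x hx
    rw [hxy] at h2
    simp only [mul] at h2
    omega
  obtain ⟨d1, hd1, hw1⟩ := right_dir k u
  have hlt1 : ∀ y ∈ A, (pos k y).1 < (pos k (d1 :: u)).1 := by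
    intro y hy
    have h3 := humax y hy
    rw [hw1]
    simp only at h3 ⊢
    omega
  by_cases hs : sgn k (pos k (d1 :: u)) = sgn k (pos k v)
  · left
    obtain ⟨g1, g2, g3, g4⟩ := glue hp A B' hA hB1 u hu d1 hd1 hlt1 (by rw [hs]; exact hmin)
    refine ⟨_, d1 :: u, r' ++ d1 :: u, g1, ?_, ?_, ?_, g3.symm, ?_⟩
    · rw [Finset.mem_union, Finset.mem_image]
      exact Or.inr ⟨[], hB1.nil, rfl⟩
    · rw [Finset.mem_union, Finset.mem_image]
      exact Or.inr ⟨r', hB3, rfl⟩
    · rw [g2, hB2]
    · unfold decB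
      rw [g4, List.length_append, Nat.add_sub_cancel, List.take_left' rfl, hB4]
  · right
    obtain ⟨f1, f2, f3, -⟩ := glue hp A {[]} hA (tr_pt k) u hu d1 hd1 hlt1 (by
      intro y hy
      rw [Finset.mem_singleton] at hy
      rw [hy]
      simp [pos])
    set A' := A ∪ ({[]} : Finset (List ℕ)).image (fun y => y ++ d1 :: u) with hA'
    obtain ⟨d2, hd2, hw2⟩ := right_dir k (d1 :: u)
    have hmem : d1 :: u ∈ A' := by
      rw [hA', Finset.mem_union, Finset.mem_image]
      exact Or.inr ⟨[], by simp, rfl⟩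
    have hlt2 : ∀ y ∈ A', (pos k y).1 < (pos k (d2 :: d1 :: u)).1 := by
      intro y hy
      rw [hA', Finset.mem_union, Finset.mem_image] at hy
      rw [hw2]
      rcases hy with hy | ⟨z, hz, rfl⟩
      · have := hlt1 y hy
        simp only
        omega
      · rw [Finset.mem_singleton] at hz
        rw [hz]
        simp
    have hs2 : sgn k (pos k (d2 :: d1 :: u)) = sgn k (pos k v) := by
      rw [hw2, hw1]
      rw [hw1] at hs
      exact sgn_right k _ _ (sgn_sq k _) hs ⟨_, rfl⟩
    obtain ⟨g1, g2, g3, g4⟩ := glue hp A' B' f1 hB1 (d1 :: u) hmem d2 hd2 hlt2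
      (by rw [hs2]; exact hmin)
    refine ⟨_, d2 :: d1 :: u, r' ++ d2 :: d1 :: u, g1, ?_, ?_, ?_, ?_, ?_⟩
    · rw [Finset.mem_union, Finset.mem_image]
      exact Or.inr ⟨[], hB1.nil, rfl⟩
    · rw [Finset.mem_union, Finset.mem_image]
      exact Or.inr ⟨r', hB3, rfl⟩
    · rw [g2, hB2, f2, Finset.card_singleton]
      omega
    · rw [g3]
      exact f3.symm
    · unfold decB
      rw [g4, List.length_append, Nat.add_sub_cancel, List.take_left' rfl, hB4]

lemma nd_le (k : Kind) : nd k ≤ 6 := by cases k <;> simp [nd]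

lemma tn_succ (ht : S_trees) (m : ℕ) (hm : 1 ≤ m) : tn k (m + 1) ≤ 6 * m * tn k m := by
  have h1 : trees k (m + 1) ⊆ ((trees k m).sigma (fun A => A ×ˢ Finset.range 6)).image
      (fun p => insert (p.2.2 :: p.2.1) p.1) := by
    intro C hC
    rw [ht.1] at hC
    obtain ⟨hC, hcard⟩ := hC
    obtain ⟨u, hu, humax⟩ := Finset.exists_max_image C (fun y => y.length) ⟨[], hC.nil⟩
    have hne : u ≠ [] := by
      rintro rfl
      have hsub : C ⊆ {[]} := by
        intro y hy
        have := humax y hy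
        simp only [List.length_nil, nonpos_iff_eq_zero, List.length_eq_zero_iff] at this
        rw [this]
        simp
      have := Finset.card_le_card hsub
      rw [Finset.card_singleton] at this
      omega
    obtain ⟨d, v, rfl⟩ : ∃ d v, u = d :: v := by
      cases u with
      | nil => exact absurd rfl hne
      | cons d v => exact ⟨d, v, rfl⟩
    rw [Finset.mem_image]
    have hv : v ∈ C.erase (d :: v) := by
      rw [Finset.mem_erase]
      refine ⟨?_, hC.tail d v hu⟩
      intro h
      have := congrArg List.length h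
      simp at this
    refine ⟨⟨C.erase (d :: v), v, d⟩, ?_, ?_⟩
    · rw [Finset.mem_sigma, Finset.mem_product, ht.1]
      refine ⟨⟨⟨?_, ?_, ?_, ?_⟩, ?_⟩, hv, ?_⟩
      · rw [Finset.mem_erase]
        exact ⟨by simp, hC.nil⟩
      · intro e w hw
        rw [Finset.mem_erase] at hw ⊢
        refine ⟨?_, hC.tail e w hw.2⟩
        rintro rfl
        have := humax _ hw.2
        simp at this
      · intro e w hw
        rw [Finset.mem_erase] at hw
        exact hC.dir e w hw.2
      · intro y hy z hz hyz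
        rw [Finset.mem_coe, Finset.mem_erase] at hy hz
        exact hC.inj hy.2 hz.2 hyz
      · rw [Finset.card_erase_of_mem hu, hcard]
        rfl
      · rw [Finset.mem_range]
        exact lt_of_lt_of_le (hC.dir d v hu) (nd_le k)
    · exact Finset.insert_erase hu
  unfold tn
  refine (Finset.card_le_card h1).trans (Finset.card_image_le.trans ?_)
  rw [Finset.card_sigma]
  refine (Finset.sum_le_card_nsmul _ _ (6 * m) ?_).trans ?_
  · intro A hA
    rw [Finset.card_product, Finset.card_range, ((ht.1 k m A).1 hA).2]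
    omega
  · rw [smul_eq_mul, mul_comm]

lemma tn_mul (ht : S_trees) (hk : S_kids) (hroot : S_root) (a b : ℕ) :
    tn k a * tn k b ≤ (a + b) ^ 2 * tn k (a + b) + (a + b + 1) ^ 2 * tn k (a + b + 1) := by
  have h1 : trees k a ×ˢ trees k b ⊆
      ((trees k (a + b)).sigma (fun C => C ×ˢ C)).image
        (fun p => (dec1 p.1 p.2.1, decB k p.1 p.2.1 p.2.2)) ∪
      ((trees k (a + b + 1)).sigma (fun C => C ×ˢ C)).image
        (fun p => (dec1 (dec1 p.1 p.2.1) p.2.1.tail, decB k p.1 p.2.1 p.2.2)) := by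
    rintro ⟨A, B⟩ hAB
    rw [Finset.mem_product, ht.1, ht.1] at hAB
    obtain ⟨⟨hA, ha⟩, hB, hb⟩ := hAB
    simp only at hA hB ha hb
    rw [Finset.mem_union, Finset.mem_image, Finset.mem_image]
    rcases code hk.1 hk.2.1 hroot A B hA hB with ⟨C, w, z, h1, h2, h3, h4, h5, h6⟩ |
      ⟨C, w, z, h1, h2, h3, h4, h5, h6⟩
    · left
      refine ⟨⟨C, w, z⟩, ?_, ?_⟩
      · rw [Finset.mem_sigma, Finset.mem_product, ht.1]
        exact ⟨⟨h1, by rw [h4, ha, hb]⟩, h2, h3⟩
      · rw [Prod.mk.injEq]
        exact ⟨h5.symm, h6.symm⟩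
    · right
      refine ⟨⟨C, w, z⟩, ?_, ?_⟩
      · rw [Finset.mem_sigma, Finset.mem_product, ht.1]
        exact ⟨⟨h1, by rw [h4, ha, hb]⟩, h2, h3⟩
      · rw [Prod.mk.injEq]
        exact ⟨h5.symm, h6.symm⟩
  have h2 : ∀ n, ((trees k n).sigma (fun C => C ×ˢ C)).card ≤ n ^ 2 * tn k n := by
    intro n
    rw [Finset.card_sigma]
    refine (Finset.sum_le_card_nsmul _ _ (n ^ 2) ?_).trans ?_
    · intro A hA
      rw [Finset.card_product, ((ht.1 k n A).1 hA).2, sq]
    · rw [smul_eq_mul, mul_comm]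
      rfl
  have h3 : tn k a * tn k b = (trees k a ×ˢ trees k b).card := by
    rw [Finset.card_product]
    rfl
  rw [h3]
  refine (Finset.card_le_card h1).trans ((Finset.card_union_le _ _).trans ?_)
  exact Nat.add_le_add (Finset.card_image_le.trans (h2 _)) (Finset.card_image_le.trans (h2 _))

theorem concat_main : S_trees → S_kids → S_root → S_concat := by
  intro ht hk hroot
  refine ⟨7 * (Polynomial.X + 1) ^ 3, ?_⟩
  intro k a b ha hb
  have h1 := tn_mul (k := k) ht hk hroot a b
  have h2 := tn_succ (k := k) ht (a + b) (by omega)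
  have h3 : (7 * (Polynomial.X + 1) ^ 3 : Polynomial ℕ).eval (a + b) = 7 * (a + b + 1) ^ 3 := by
    simp
  rw [h3]
  set n := a + b with hn
  have h4 : n ^ 2 * tn k n + (n + 1) ^ 2 * tn k (n + 1) ≤
      n ^ 2 * tn k n + (n + 1) ^ 2 * (6 * n * tn k n) := by
    gcongr
  have h5 : n ^ 2 + (n + 1) ^ 2 * (6 * n) ≤ 7 * (n + 1) ^ 3 := by
    nlinarith
  calc tn k a * tn k b ≤ n ^ 2 * tn k n + (n + 1) ^ 2 * (6 * n * tn k n) := h1.trans h4
    _ = (n ^ 2 + (n + 1) ^ 2 * (6 * n)) * tn k n := by ring
    _ ≤ 7 * (n + 1) ^ 3 * tn k n := Nat.mul_le_mul_right _ h5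

end Pool.Agent.W465.LT
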