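import Pool.Agent.W955.LT.Stm

/-!
# Rerooting a tree of addresses
-/

namespace Pool.Agent.W465.LT

open Classical Pool.Agent.W955.LT

lemma sgn_sq (k : Kind) (a : ℤ × ℤ) : sgn k a = 1 ∨ sgn k a = -1 := by
  cases k
  · left; rfl
  · simp only [sgn]
    split_ifs
    · left; rfl
    · right; rfl
  · left; rfl

lemma zero_mul' (k : Kind) (b : ℤ × ℤ) : mul k (0, 0) b = b := by
  have h : sgn k (0, 0) = 1 := by
    cases k
    · rfl
    · simp [sgn]
    · rfl
  ext <;> simp [mul, h]

lemma mul_inj (k : Kind) (a b c : ℤ × ℤ) (h : mul k a b = mul k a c) : b = c := by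
  simp only [mul, Prod.mk.injEq, add_right_inj] at h
  rcases sgn_sq k a with hs | hs
  · rw [hs] at h
    ext
    · simpa using h.1
    · simpa using h.2
  · rw [hs] at h
    ext
    · simpa using h.1
    · simpa using h.2

lemma mul_zero' (k : Kind) (a : ℤ × ℤ) : mul k a (0, 0) = a := by
  ext <;> simp [mul]

lemma pos_one (k : Kind) (d : ℕ) : pos k [d] = stp k d := by
  simp only [pos]
  exact zero_mul' k _

lemma step_inv (k : Kind) (d : ℕ) (hd : d < nd k) :
    mul k (stp k d) (stp k (dinv k d)) = (0, 0) ∧ dinv k d < nd k ∧ dinv k (dinv k d) = d := by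
  cases k
  · simp only [nd] at hd ⊢
    interval_cases d <;> decide
  · simp only [nd] at hd ⊢
    interval_cases d <;> decide
  · simp only [nd] at hd ⊢
    interval_cases d <;> decide

/-- the map on words -/
def g (k : Kind) (d : ℕ) (w : List ℕ) : List ℕ := if [d] <:+ w then w.dropLast else w ++ [dinv k d]

lemma rho_eq (k : Kind) (d : ℕ) (A : Finset (List ℕ)) : rho k d A = A.image (g k d) := rfl

lemma g_snoc (k : Kind) (d : ℕ) (w : List ℕ) : g k d (w ++ [d]) = w := by
  unfold g
  rw [if_pos (List.suffix_append w [d]), List.dropLast_concat]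

lemma g_other (k : Kind) (d : ℕ) (w : List ℕ) (h : ¬ [d] <:+ w) : g k d w = w ++ [dinv k d] := by
  unfold g
  rw [if_neg h]

lemma Tr.suffix {k : Kind} {A : Finset (List ℕ)} (hA : Tr k A) :
    ∀ (u v : List ℕ), u ++ v ∈ A → v ∈ A := by
  intro u
  induction u with
  | nil => intro v h; exact h
  | cons d u ih => intro v h; exact ih v (hA.tail d _ h)

variable {k : Kind}

lemma dir_last {A : Finset (List ℕ)} (hA : Tr k A) {d : ℕ} (hd : [d] ∈ A) : d < nd k :=
  hA.dir d [] hd

section step

variable (hm : ∀ k a b c, mul k (mul k a b) c = mul k a (mul k b c))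
  (hp : ∀ k u v, pos k (u ++ v) = mul k (pos k v) (pos k u))

include hm hp

lemma g_pos (d : ℕ) (hd : d < nd k) (w : List ℕ) : mul k (stp k d) (pos k (g k d w)) = pos k w := by
  by_cases h : [d] <:+ w
  · obtain ⟨v, rfl⟩ := h
    rw [g_snoc, hp, pos_one]
  · rw [g_other k d w h, hp, pos_one, ← hm, (step_inv k d hd).1, zero_mul']

lemma rho_tr {A : Finset (List ℕ)} (hA : Tr k A) {d : ℕ} (hd : [d] ∈ A) : Tr k (rho k d A) := by
  have hd' := dir_last hA hd
  refine ⟨?_, ?_, ?_, ?_⟩
  · rw [rho_eq, Finset.mem_image]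
    exact ⟨[d], hd, g_snoc k d []⟩
  · intro e w hw
    rw [rho_eq, Finset.mem_image] at hw ⊢
    obtain ⟨v, hv, hvw⟩ := hw
    by_cases h : [d] <:+ v
    · obtain ⟨u, rfl⟩ := h
      rw [g_snoc] at hvw
      subst hvw
      exact ⟨w ++ [d], hA.tail e _ hv, g_snoc k d w⟩
    · rw [g_other k d v h] at hvw
      cases v with
      | nil =>
        simp only [List.nil_append, List.cons.injEq] at hvw
        refine ⟨[d], hd, ?_⟩
        rw [← hvw.2]
        exact g_snoc k d []
      | cons e' v =>
        simp only [List.cons_append, List.cons.injEq] at hvw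
        refine ⟨v, hA.tail _ _ hv, ?_⟩
        rw [g_other k d v (fun h' => h (h'.trans (List.suffix_cons e' v)))]
        exact hvw.2
  · intro e w hw
    rw [rho_eq, Finset.mem_image] at hw
    obtain ⟨v, hv, hvw⟩ := hw
    by_cases h : [d] <:+ v
    · obtain ⟨u, rfl⟩ := h
      rw [g_snoc] at hvw
      subst hvw
      exact hA.dir e _ hv
    · rw [g_other k d v h] at hvw
      cases v with
      | nil =>
        simp only [List.nil_append, List.cons.injEq] at hvw
        rw [← hvw.1]
        exact (step_inv k d hd').2.1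
      | cons e' v =>
        simp only [List.cons_append, List.cons.injEq] at hvw
        rw [← hvw.1]
        exact hA.dir _ _ hv
  · intro u hu v hv huv
    rw [Finset.mem_coe, rho_eq, Finset.mem_image] at hu hv
    obtain ⟨u', hu', rfl⟩ := hu
    obtain ⟨v', hv', rfl⟩ := hv
    have h1 := g_pos hm hp d hd' u'
    have h2 := g_pos hm hp d hd' v'
    have h3 : pos k u' = pos k v' := by rw [← h1, ← h2, huv]
    rw [hA.inj hu' hv' h3]

lemma rho_card {A : Finset (List ℕ)} (hA : Tr k A) {d : ℕ} (hd : [d] ∈ A) :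
    (rho k d A).card = A.card := by
  have hd' := dir_last hA hd
  rw [rho_eq]
  apply Finset.card_image_of_injOn
  intro u hu v hv huv
  apply hA.inj hu hv
  rw [← g_pos hm hp d hd' u, ← g_pos hm hp d hd' v, huv]

lemma rho_inv {A : Finset (List ℕ)} (hA : Tr k A) {d : ℕ} (hd : [d] ∈ A) :
    rho k (dinv k d) (rho k d A) = A := by
  have hd' := dir_last hA hd
  obtain ⟨hi1, hi2, hi3⟩ := step_inv k d hd'
  rw [rho_eq, rho_eq, Finset.image_image]
  have hkey : ∀ w ∈ A, (g k (dinv k d) ∘ g k d) w = w := by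
    intro w hw
    rw [Function.comp_apply]
    by_cases h : [d] <:+ w
    · obtain ⟨v, rfl⟩ := h
      rw [g_snoc, g_other, hi3]
      rintro ⟨u, rfl⟩
      have h1 : [dinv k d, d] ∈ A := by
        apply Tr.suffix hA u
        simpa using hw
      have h2 : pos k [dinv k d, d] = pos k [] := by
        have : [dinv k d, d] = [dinv k d] ++ [d] := rfl
        rw [this, hp, pos_one, pos_one, hi1]
        rfl
      have h3 := hA.inj h1 hA.nil h2
      exact absurd h3 (by simp)
    · rw [g_other k d w h, g_snoc]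
  ext w
  rw [Finset.mem_image]
  constructor
  · rintro ⟨v, hv, rfl⟩
    rw [hkey v hv]
    exact hv
  · intro hw
    exact ⟨w, hw, hkey w hw⟩

lemma rho_pos {A : Finset (List ℕ)} (hA : Tr k A) {d : ℕ} (hd : [d] ∈ A) (x : ℤ × ℤ) :
    x ∈ (rho k d A).image (pos k) ↔ mul k (stp k d) x ∈ A.image (pos k) := by
  have hd' := dir_last hA hd
  rw [Finset.mem_image, Finset.mem_image]
  constructor
  · rintro ⟨u, hu, rfl⟩
    rw [rho_eq, Finset.mem_image] at hu
    obtain ⟨v, hv, rfl⟩ := hu
    exact ⟨v, hv, (g_pos hm hp d hd' v).symm⟩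
  · rintro ⟨v, hv, hvx⟩
    refine ⟨g k d v, ?_, ?_⟩
    · rw [rho_eq, Finset.mem_image]
      exact ⟨v, hv, rfl⟩
    · apply mul_inj k (stp k d)
      rw [g_pos hm hp d hd', hvx]

lemma all {A : Finset (List ℕ)} (hA : Tr k A) : ∀ r : List ℕ, r ∈ A →
    Tr k (rrt k r A) ∧ (rrt k r A).card = A.card ∧ (∀ u, u ++ r ∈ A → u ∈ rrt k r A) ∧
    (r.map (dinv k)).reverse ∈ rrt k r A ∧
    rrt k (r.map (dinv k)).reverse (rrt k r A) = A ∧
    ∀ x, x ∈ (rrt k r A).image (pos k) ↔ mul k (pos k r) x ∈ A.image (pos k) := by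
  intro r
  induction r with
  | nil =>
    intro _
    refine ⟨hA, rfl, ?_, hA.nil, rfl, ?_⟩
    · intro u hu
      rwa [List.append_nil] at hu
    · intro x
      have : pos k [] = (0, 0) := rfl
      rw [this, zero_mul']
      rfl
  | cons d r ih =>
    intro hdr
    have hr : r ∈ A := hA.tail d r hdr
    obtain ⟨h1, h2, h3, h4, h5, h6⟩ := ih hr
    have hd : [d] ∈ rrt k r A := h3 [d] hdr
    have hd' := dir_last h1 hd
    have he : rrt k (d :: r) A = rho k d (rrt k r A) := rfl
    rw [he]
    refine ⟨rho_tr hm hp h1 hd, ?_, ?_, ?_, ?_, ?_⟩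
    · rw [rho_card hm hp h1 hd, h2]
    · intro u hu
      have h7 : u ++ [d] ∈ rrt k r A := by
        apply h3
        simpa using hu
      rw [rho_eq, Finset.mem_image]
      exact ⟨_, h7, g_snoc k d u⟩
    · rw [List.map_cons, List.reverse_cons, rho_eq, Finset.mem_image]
      refine ⟨_, h4, g_other k d _ ?_⟩
      rintro ⟨u, hu⟩
      cases r with
      | nil => simp at hu
      | cons e r =>
        rw [List.map_cons, List.reverse_cons] at hu
        have h8 := List.append_inj_right' hu rfl
        simp only [List.cons.injEq, and_true] at h8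
        have hen : e < nd k := hA.dir e r hr
        have h9 : pos k (d :: e :: r) = pos k r := by
          simp only [pos]
          rw [hm, h8, (step_inv k e hen).1, mul_zero']
        have h10 := hA.inj hdr (hA.tail e r hr) h9
        have h11 := congrArg List.length h10
        simp only [List.length_cons] at h11
        omega
    · rw [List.map_cons, List.reverse_cons]
      have h7 : rrt k ((r.map (dinv k)).reverse ++ [dinv k d]) (rho k d (rrt k r A)) =
          rrt k (r.map (dinv k)).reverse (rho k (dinv k d) (rho k d (rrt k r A))) := by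
        unfold rrt
        rw [List.foldr_append]
        rfl
      rw [h7, rho_inv hm hp h1 hd, h5]
    · intro x
      rw [rho_pos hm hp h1 hd, h6, ← hm]
      rfl

end step

theorem root_main : S_kids → S_root := by
  intro h k r A hA hr
  obtain ⟨h1, h2, -, h4, h5, h6⟩ := all h.1 h.2.1 hA r hr
  exact ⟨h1, h2, h4, h5, h6⟩

end Pool.Agent.W465.LT
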